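import Pool.Agent.H762.TG.Series

/-!
Coordinates for isometric embeddings of lattices with many roots (after
`Pool/Agent/H762/TG/Series.lean`).
-/

set_option autoImplicit false

namespace Pool.Agent.H754.Opt

open Finset Matrix Pool.Agent.H762.TG Pool.Agent.H762.TG.Multigraph

variable {E : Type} [Fintype E] [DecidableEq E]

/-- In an isometric embedding of a lattice which contains the root lattices of classes with at
least three elements these root lattices are embedded in the standard way. -/
theorem exists_coords {L : Submodule ℤ (E → ℤ)} {sg : E → ℤ} (hs1 : ∀ e, sg e = 1 ∨ sg e = -1)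
    (R : Setoid E) (hL : ∀ e f, R e f → root sg e f ∈ L)
    (hc3 : ∀ e, 3 ≤ {f | R e f}.ncard)
    (hc4 : ∀ (S : Finset E) (e : E), (∀ f, f ∈ S ↔ R e f) → S.card = 4 →
      ∃ z ∈ L, Odd (∑ f ∈ S, z f))
    {ι : Type} [Fintype ι] [DecidableEq ι] (φ : L →ₗ[ℤ] (ι → ℤ))
    (hφ : ∀ a b, φ a ⬝ᵥ φ b = (a : E → ℤ) ⬝ᵥ (b : E → ℤ)) :
    ∃ (b : E → ι) (ε : E → ℤ), Function.Injective b ∧ (∀ e, ε e = 1 ∨ ε e = -1) ∧
      ∀ e f (h : R e f), φ ⟨root sg e f, hL e f h⟩ =
        Pi.single (b e) (ε e) - Pi.single (b f) (ε f) := by
  classical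
  let J := Quotient R
  let cl : E → J := Quotient.mk R
  let q : J → ℕ := fun j => Fintype.card {f : E // cl f = j}
  have hqe : ∀ e, 3 ≤ q (cl e) := by
    intro e
    refine (hc3 e).trans (le_of_eq ?_)
    rw [Set.ncard_eq_toFinset_card']
    change _ = Fintype.card {f : E // cl f = cl e}
    rw [Fintype.card_subtype]
    congr 1
    ext f
    simp only [Set.mem_toFinset, mem_filter, mem_univ, true_and]
    constructor
    · intro h
      exact (Quotient.sound (s := R) h).symm
    · intro h
      exact Quotient.exact (s := R) h.symm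
  have hq3 : ∀ j, 3 ≤ q j := by
    intro j
    obtain ⟨e, rfl⟩ := Quotient.exists_rep j
    exact hqe e
  have hq : ∀ j, 2 ≤ q j := fun j => by have := hq3 j; omega
  let en : ∀ j, Fin (q j) ≃ {f : E // cl f = j} := fun j => (Fintype.equivFin _).symm
  let c : J → ℕ → E := fun j s => if h : s < q j then (en j ⟨s, h⟩).1 else j.out
  have hc : ∀ j s (h : s < q j), c j s = (en j ⟨s, h⟩).1 := fun j s h => dif_pos h
  have hcl : ∀ j s, cl (c j s) = j := by
    intro j s
    by_cases h : s < q j
    · rw [hc j s h]; exact (en j ⟨s, h⟩).2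
    · have : c j s = j.out := dif_neg h
      rw [this]
      exact Quotient.out_eq j
  have hser : ∀ j s r, R (c j s) (c j r) := fun j s r =>
    Quotient.exact (s := R) ((hcl j s).trans (hcl j r).symm)
  have hinj : ∀ j s r, s < q j → r < q j → c j s = c j r → s = r := by
    intro j s r hs hr h
    rw [hc j s hs, hc j r hr] at h
    have := (en j).injective (Subtype.ext h)
    exact congrArg Fin.val this
  have hne : ∀ j l s r, j ≠ l → c j s ≠ c l r := by
    intro j l s r h h'
    apply h
    rw [← hcl j s, ← hcl l r, h']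
  let v : J → ℕ → ι → ℤ := fun j s => φ ⟨root sg (c j s) (c j (s + 1)), hL _ _ (hser j _ _)⟩
  have hvdot : ∀ j l s r, v j s ⬝ᵥ v l r =
      root sg (c j s) (c j (s + 1)) ⬝ᵥ root sg (c l r) (c l (r + 1)) := fun j l s r => hφ _ _
  have hsq : ∀ e, sg e * sg e = 1 := fun e => by rcases hs1 e with h | h <;> rw [h] <;> rfl
  -- the classes as finite sets
  have hcls : ∀ j, (univ.filter fun e => cl e = j) = (range (q j)).image (c j) := by
    intro j
    ext e
    simp only [mem_filter, mem_univ, true_and, mem_image, mem_range]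
    constructor
    · intro he
      refine ⟨((en j).symm ⟨e, he⟩ : Fin (q j)), Fin.is_lt _, ?_⟩
      rw [hc _ _ (Fin.is_lt _)]
      change ((en j) ((en j).symm ⟨e, he⟩)).1 = e
      rw [Equiv.apply_symm_apply]
    · rintro ⟨s, -, rfl⟩
      exact hcl j s
  have hsumc : ∀ j (z : E → ℤ), ∑ e with cl e = j, z e = ∑ s ∈ range (q j), z (c j s) := by
    intro j z
    rw [hcls, sum_image]
    intro s hs r hr h
    exact hinj j s r (mem_range.1 hs) (mem_range.1 hr) h
  have hdotr : ∀ (z : L) j s, φ z ⬝ᵥ v j s =
      sg (c j s) * (z : E → ℤ) (c j s) - sg (c j (s + 1)) * (z : E → ℤ) (c j (s + 1)) := by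
    intro z j s
    change φ z ⬝ᵥ φ _ = _
    rw [hφ, dotProduct_comm]
    exact root_dot sg _ _ _
  obtain ⟨b, ε, hg, hb⟩ := chains (q := q) (v := v) hq
    (by
      intro j s hs
      have h1 : c j s ≠ c j (s + 1) := fun h => by
        have := hinj j _ _ (by omega) (by omega) h
        omega
      rw [hvdot, root_dot, root_apply_self sg h1, root_apply_right sg h1]
      have := hsq (c j s)
      have := hsq (c j (s + 1))
      linarith)
    (by
      intro j s hs
      have h1 : c j s ≠ c j (s + 1) := fun h => by
        have := hinj j _ _ (by omega) (by omega) h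
        omega
      have h2 : c j s ≠ c j (s + 1 + 1) := fun h => by
        have := hinj j _ _ (by omega) (by omega) h
        omega
      have h3 : c j (s + 1) ≠ c j (s + 1 + 1) := fun h => by
        have := hinj j _ _ (by omega) (by omega) h
        omega
      rw [hvdot, root_dot, root_apply_ne sg h1 h2, root_apply_self sg h3]
      have := hsq (c j (s + 1))
      linarith)
    (by
      intro j s r hsr hr
      have h1 : ∀ a b, a < b → b < q j → c j a ≠ c j b := fun a b hab hb h => by
        have := hinj j _ _ (by omega) (by omega) h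
        omega
      rw [hvdot, root_dot, root_apply_ne sg (h1 _ _ (by omega) (by omega))
        (h1 _ _ (by omega) (by omega)), root_apply_ne sg (h1 _ _ (by omega) (by omega))
        (h1 _ _ (by omega) (by omega))]
      ring)
    (by
      intro j l s r hjl _ _
      rw [hvdot, root_dot, root_apply_ne sg (hne _ _ _ _ hjl) (hne _ _ _ _ hjl),
        root_apply_ne sg (hne _ _ _ _ hjl) (hne _ _ _ _ hjl)]
      ring)
    (by
      intro j hj
      obtain ⟨z, hz, hodd⟩ := hc4 (univ.filter fun e => cl e = j) j.out (by
        intro f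
        rw [mem_filter]
        constructor
        · rintro ⟨-, h⟩
          refine Quotient.exact (s := R) ?_
          rw [Quotient.out_eq]
          exact h.symm
        · intro h
          refine ⟨mem_univ _, ?_⟩
          have := Quotient.sound (s := R) h
          rw [Quotient.out_eq] at this
          exact this.symm) (by rw [← Fintype.card_subtype]; exact hj)
      refine ⟨φ ⟨z, hz⟩, ?_⟩
      rw [hdotr, hdotr]
      rw [hsumc, hj, sum_range_succ, sum_range_succ, sum_range_succ, sum_range_one] at hodd
      obtain ⟨k, hk⟩ := hodd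
      simp only [zero_add, Nat.reduceAdd]
      rw [← Int.not_even_iff_odd]
      rintro ⟨m, hm⟩
      rcases hs1 (c j 0) with h0 | h0 <;> rcases hs1 (c j 1) with h1 | h1 <;>
        rcases hs1 (c j 2) with h2 | h2 <;> rcases hs1 (c j 3) with h3 | h3 <;>
        rw [h0, h1, h2, h3] at hm <;> omega)
    (by
      intro j l _ hj _
      have := hq3 j
      omega)
  -- the index of an edge in its class
  let ix : E → ℕ := fun e => ((en (cl e)).symm ⟨e, rfl⟩ : Fin (q (cl e)))
  have hix : ∀ e, ix e < q (cl e) := fun e => Fin.is_lt _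
  have hcix : ∀ e, c (cl e) (ix e) = e := by
    intro e
    rw [hc _ _ (hix e)]
    change ((en (cl e)) ((en (cl e)).symm ⟨e, rfl⟩)).1 = e
    rw [Equiv.apply_symm_apply]
  -- the formula for all pairs
  have hstart : ∀ j s, s < q j → φ ⟨root sg (c j 0) (c j s), hL _ _ (hser j _ _)⟩ =
      Pi.single (b j 0) (ε j 0) - Pi.single (b j s) (ε j s) := by
    intro j s
    induction s with
    | zero =>
      intro _
      have : (⟨root sg (c j 0) (c j 0), hL _ _ (hser j _ _)⟩ : L) = 0 := by
        apply Subtype.ext
        simp [root]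
      rw [this, map_zero, sub_self]
    | succ s ih =>
      intro hs
      have h1 : (⟨root sg (c j 0) (c j (s + 1)), hL _ _ (hser j _ _)⟩ : L) =
          ⟨root sg (c j 0) (c j s), hL _ _ (hser j _ _)⟩ +
          ⟨root sg (c j s) (c j (s + 1)), hL _ _ (hser j _ _)⟩ := by
        apply Subtype.ext
        exact (root_add sg _ _ _).symm
      rw [h1, map_add, ih (by omega)]
      have h2 := (hg j).2.2 s (by omega)
      change v j s = _ at h2
      change _ + v j s = _
      rw [h2]
      abel
  refine ⟨fun e => b (cl e) (ix e), fun e => ε (cl e) (ix e), ?_, ?_, ?_⟩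
  · intro e f hef
    have h1 := hb _ _ _ _ (hix e) (hix f) hef
    rw [← hcix e, ← hcix f, h1.1, h1.2]
  · intro e
    have := hix e
    exact (hg (cl e)).1 _ (by omega)
  · intro e f h
    have hcf : cl e = cl f := Quotient.sound (s := R) h
    have h1 : (⟨root sg e f, hL _ _ h⟩ : L) =
        ⟨root sg (c (cl e) 0) (c (cl e) (ix f)), hL _ _ (hser _ _ _)⟩ -
        ⟨root sg (c (cl e) 0) (c (cl e) (ix e)), hL _ _ (hser _ _ _)⟩ := by
      apply Subtype.ext
      change root sg e f = root sg (c (cl e) 0) (c (cl e) (ix f)) -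
        root sg (c (cl e) 0) (c (cl e) (ix e))
      rw [hcix e]
      have h2 : c (cl e) (ix f) = f := by rw [hcf, hcix f]
      rw [h2]
      simp only [root]
      abel
    have hixf : ix f < q (cl e) := by rw [hcf]; exact hix f
    rw [h1, map_sub, hstart _ _ hixf, hstart _ _ (hix e)]
    change _ = (Pi.single (b (cl e) (ix e)) (ε (cl e) (ix e)) : ι → ℤ) -
      (Pi.single (b (cl f) (ix f)) (ε (cl f) (ix f)) : ι → ℤ)
    rw [← hcf]
    abel


end Pool.Agent.H754.Opt
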