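import Pool.Agent.H754.Opt.Thick

/-!
Pushing forward flows along an injection of the sets of edges; bundles of parallel edges.
-/

set_option autoImplicit false

namespace Pool.Agent.H754.Opt

open Finset Matrix Pool.Agent.H762.TG Pool.Agent.H762.TG.Multigraph Pool.Agent.H754.Special

section

variable {E E' : Type} [Fintype E] [Fintype E'] [DecidableEq E] [DecidableEq E']

/-- push forward along a signed injection -/
def push (τ : E' → E) (η : E' → ℤˣ) (x : E' → ℤ) (e : E) : ℤ :=
  ∑ e' with τ e' = e, (η e' : ℤ) * x e'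

omit [Fintype E] [DecidableEq E'] in
theorem push_apply {τ : E' → E} (hτ : Function.Injective τ) (η : E' → ℤˣ) (x : E' → ℤ)
    (e' : E') : push τ η x (τ e') = η e' * x e' := by
  classical
  have h : (univ.filter fun e'' => τ e'' = τ e') = {e'} := by
    ext e''
    simp [hτ.eq_iff]
  rw [push, h, sum_singleton]

omit [Fintype E] [DecidableEq E'] in
theorem push_out {τ : E' → E} (η : E' → ℤˣ) (x : E' → ℤ) {e : E} (h : ∀ e', τ e' ≠ e) :
    push τ η x e = 0 := by
  rw [push, filter_false_of_mem fun e' _ => h e', sum_empty]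

omit [Fintype E] [DecidableEq E'] in
theorem push_add (τ : E' → E) (η : E' → ℤˣ) (x y : E' → ℤ) :
    push τ η (x + y) = push τ η x + push τ η y := by
  funext e
  simp only [push, Pi.add_apply, mul_add, sum_add_distrib]

theorem push_dot {τ : E' → E} (hτ : Function.Injective τ) (η : E' → ℤˣ) (x y : E' → ℤ) :
    push τ η x ⬝ᵥ push τ η y = x ⬝ᵥ y := by
  rw [dot_split hτ fun e he => push_out η y he]
  simp only [dotProduct]
  apply sum_congr rfl
  intro e _
  rw [push_apply hτ, push_apply hτ]
  calc (η e : ℤ) * x e * (η e * y e) = ((η e : ℤ) * η e) * (x e * y e) := by ring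
    _ = _ := by rw [unit_mul_self, one_mul]

omit [Fintype E] [DecidableEq E'] in
theorem eq_push {τ : E' → E} (hτ : Function.Injective τ) (η : E' → ℤˣ) {x : E' → ℤ} {y : E → ℤ}
    (h1 : ∀ e', y (τ e') = η e' * x e') (h2 : ∀ e, (∀ e', τ e' ≠ e) → y e = 0) :
    y = push τ η x := by
  funext e
  by_cases h : ∃ e', τ e' = e
  · obtain ⟨e', rfl⟩ := h
    rw [h1, push_apply hτ]
  · push Not at h
    rw [h2 e h, push_out η x h]

omit [Fintype E] [DecidableEq E'] in
theorem push_eq_sum (τ : E' → E) (η : E' → ℤˣ) (x : E' → ℤ) :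
    push τ η x = ∑ e', (η e' * x e') • Pi.single (τ e') (1 : ℤ) := by
  funext e
  rw [push, Finset.sum_apply, sum_filter]
  apply sum_congr rfl
  intro e' _
  rw [Pi.smul_apply, Pi.single_apply, smul_eq_mul]
  by_cases h : τ e' = e
  · rw [if_pos h, if_pos h.symm, mul_one]
  · rw [if_neg h, if_neg fun h' => h h'.symm, mul_zero]

end

section

variable {V E : Type} [Fintype V] [Fintype E] [DecidableEq V] [DecidableEq E]
  {G : Multigraph V E}

omit [Fintype V] in
/-- two edges whose signed sum is a flow are parallel -/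
theorem parallel_of {c : V → Bool} (hc : ∀ e, c (G.src e) ≠ c (G.tgt e)) {e f : E} {a b : ℤ}
    (ha : a = 1 ∨ a = -1) (h : G.IsFlow (a • Pi.single e 1 + b • Pi.single f 1)) :
    Parallel G e f := by
  rw [isFlow_iff] at h
  have h1 := congrFun h (G.tgt e)
  have h2 := congrFun h (G.src e)
  have hne : G.src e ≠ G.tgt e := fun h => hc e (by rw [h])
  rw [bd_add, Pi.add_apply, bd_smul, bd_smul, Pi.smul_apply, Pi.smul_apply, bd_single,
    bd_single, if_pos rfl, if_neg hne.symm, Pi.zero_apply] at h1
  rw [bd_add, Pi.add_apply, bd_smul, bd_smul, Pi.smul_apply, Pi.smul_apply, bd_single,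
    bd_single, if_pos rfl, if_neg hne, Pi.zero_apply] at h2
  simp only [smul_eq_mul] at h1 h2
  by_cases k1 : G.tgt e = G.tgt f
  · by_cases k2 : G.src e = G.src f
    · exact Or.inl ⟨k2, k1⟩
    · have k3 : G.src e ≠ G.tgt f := fun h => hne (h.trans k1.symm)
      rw [if_neg k3, if_neg k2] at h2
      rcases ha with ha | ha <;> rw [ha] at h2 <;> omega
  · by_cases k2 : G.tgt e = G.src f
    · by_cases k3 : G.src e = G.tgt f
      · exact Or.inr ⟨k3, k2⟩
      · have k4 : G.src e ≠ G.src f := fun h => hne (h.trans k2.symm)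
        rw [if_neg k3, if_neg k4] at h2
        rcases ha with ha | ha <;> rw [ha] at h2 <;> omega
    · rw [if_neg k1, if_neg k2] at h1
      rcases ha with ha | ha <;> rw [ha] at h1 <;> omega

end

/-- The disjoint union of `r` bundles; the `i`-th bundle consists of `n i` parallel edges. -/
def bundles {r : ℕ} (n : Fin r → ℕ) : Multigraph (Fin r × Bool) ((i : Fin r) × Fin (n i)) where
  src e := (e.1, false)
  tgt e := (e.1, true)

section

variable {r : ℕ} {n : Fin r → ℕ}

theorem bundles_flow {x : ((i : Fin r) × Fin (n i)) → ℤ} :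
    (bundles n).IsFlow x ↔ ∀ i, ∑ k, x ⟨i, k⟩ = 0 := by
  have key : ∀ i, ∑ e : (i : Fin r) × Fin (n i) with e.1 = i, x e = ∑ k, x ⟨i, k⟩ := by
    intro i
    rw [sum_filter, Fintype.sum_sigma, sum_eq_single i]
    · simp
    · intro j _ hj
      apply sum_eq_zero
      intro k _
      rw [if_neg hj]
    · intro h; exact absurd (mem_univ _) h
  constructor
  · intro h i
    have h1 := h (i, true)
    rw [← key]
    have h2 : (univ.filter fun e : (i : Fin r) × Fin (n i) => (bundles n).tgt e = (i, true)) =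
        univ.filter fun e => e.1 = i := by
      ext e
      simp [bundles]
    have h3 : (univ.filter fun e : (i : Fin r) × Fin (n i) => (bundles n).src e = (i, true)) =
        ∅ := by
      ext e
      simp [bundles]
    rw [h2, h3, sum_empty] at h1
    exact h1
  · rintro h ⟨i, b⟩
    cases b
    · have h2 : (univ.filter fun e : (i : Fin r) × Fin (n i) => (bundles n).tgt e = (i, false)) =
          ∅ := by
        ext e
        simp [bundles]
      have h3 : (univ.filter fun e : (i : Fin r) × Fin (n i) => (bundles n).src e = (i, false)) =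
          univ.filter fun e => e.1 = i := by
        ext e
        simp [bundles]
      rw [h2, h3, sum_empty, key, h]
    · have h2 : (univ.filter fun e : (i : Fin r) × Fin (n i) => (bundles n).tgt e = (i, true)) =
          univ.filter fun e => e.1 = i := by
        ext e
        simp [bundles]
      have h3 : (univ.filter fun e : (i : Fin r) × Fin (n i) => (bundles n).src e = (i, true)) =
          ∅ := by
        ext e
        simp [bundles]
      rw [h2, h3, sum_empty, key, h]

theorem bundles_bip (e : (i : Fin r) × Fin (n i)) :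
    (fun v : Fin r × Bool => v.2) ((bundles n).src e) ≠
      (fun v : Fin r × Bool => v.2) ((bundles n).tgt e) := by
  simp [bundles]

theorem bundles_par {e f : (i : Fin r) × Fin (n i)} : Parallel (bundles n) e f ↔ e.1 = f.1 := by
  simp [Parallel, bundles]

/-- the elementary flows of a bundle -/
theorem bundles_root (i : Fin r) (k l : Fin (n i)) :
    (bundles n).IsFlow (Pi.single ⟨i, k⟩ 1 - Pi.single ⟨i, l⟩ 1) := by
  rw [bundles_flow]
  intro j
  by_cases h : j = i
  · subst h
    have key : ∀ k : Fin (n j),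
        ∑ m, (Pi.single (⟨j, k⟩ : (i : Fin r) × Fin (n i)) 1 : _ → ℤ) ⟨j, m⟩ = 1 := by
      intro k
      rw [sum_eq_single k]
      · rw [Pi.single_eq_same]
      · intro m _ hm
        rw [Pi.single_eq_of_ne]
        intro h
        exact hm (by simpa using h)
      · intro h; exact absurd (mem_univ _) h
    simp only [Pi.sub_apply, sum_sub_distrib]
    rw [key, key, sub_self]
  · apply sum_eq_zero
    intro m _
    rw [Pi.sub_apply, Pi.single_eq_of_ne, Pi.single_eq_of_ne, sub_self]
    · intro h'; exact h (by simpa using congrArg Sigma.fst h')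
    · intro h'; exact h (by simpa using congrArg Sigma.fst h')

theorem bundles_br (hn : ∀ i, 2 ≤ n i) (e : (i : Fin r) × Fin (n i)) :
    ∃ x, (bundles n).IsFlow x ∧ x e ≠ 0 := by
  obtain ⟨i, k⟩ := e
  obtain ⟨l, hl⟩ : ∃ l : Fin (n i), l ≠ k := by
    have : Nontrivial (Fin (n i)) := Fin.nontrivial_iff_two_le.2 (hn i)
    exact exists_ne k
  refine ⟨_, bundles_root i k l, ?_⟩
  rw [Pi.sub_apply, Pi.single_eq_same, Pi.single_eq_of_ne, sub_zero]
  · exact one_ne_zero
  · intro h
    exact hl (by simpa using h.symm)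

theorem bundles_odd (hn : ∀ i, Odd (n i)) {x : ((i : Fin r) × Fin (n i)) → ℤ}
    (hx : (bundles n).IsFlow x) (h : ∀ y, (bundles n).IsFlow y → Even (x ⬝ᵥ y)) :
    ∃ z, (bundles n).IsFlow z ∧ x = (2 : ℤ) • z := by
  have h1 : ∀ i (k l : Fin (n i)), Even (x ⟨i, k⟩ - x ⟨i, l⟩) := by
    intro i k l
    have := h _ (bundles_root i k l)
    rw [dotProduct_sub, dotProduct_single, dotProduct_single, mul_one, mul_one] at this
    exact this
  have h2 : ∀ i (k : Fin (n i)), Even (x ⟨i, k⟩) := by
    intro i k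
    have h3 := bundles_flow.1 hx i
    have h4 : Even (∑ l, (x ⟨i, k⟩ - x ⟨i, l⟩)) := Finset.even_sum _ fun l _ => h1 i k l
    rw [sum_sub_distrib, h3, sub_zero, sum_const, card_univ, Fintype.card_fin, nsmul_eq_mul,
      Int.even_mul] at h4
    rcases h4 with h4 | h4
    · exfalso
      have h5 := hn i
      rw [← Nat.not_even_iff_odd] at h5
      exact h5 (by exact_mod_cast h4)
    · exact h4
  choose z hz using fun e : (i : Fin r) × Fin (n i) => h2 e.1 e.2
  have hxz : x = (2 : ℤ) • z := by
    funext e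
    rw [Pi.smul_apply, smul_eq_mul, two_mul]
    exact hz e
  refine ⟨z, bundles_flow.2 fun i => ?_, hxz⟩
  have h3 := bundles_flow.1 hx i
  rw [hxz] at h3
  simp only [Pi.smul_apply, smul_eq_mul, ← mul_sum] at h3
  omega

theorem bundles_thick (hn : ∀ i, 3 ≤ n i) (e : (i : Fin r) × Fin (n i)) :
    3 ≤ {f | Parallel (bundles n) e f}.ncard := by
  have h1 : (Set.range fun k : Fin (n e.1) => (⟨e.1, k⟩ : (i : Fin r) × Fin (n i))).ncard =
      n e.1 := by
    rw [← Set.image_univ, Set.ncard_image_of_injective _ (fun a b h => by simpa using h),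
      Set.ncard_univ, Nat.card_eq_fintype_card, Fintype.card_fin]
  refine (hn e.1).trans ?_
  rw [← h1]
  apply Set.ncard_le_ncard _ (Set.toFinite _)
  rintro f ⟨k, rfl⟩
  exact bundles_par.2 rfl

end

section

variable {V E : Type} [Fintype V] [Fintype E] [DecidableEq V] [DecidableEq E]
  {G : Multigraph V E} {r : ℕ} {n : Fin r → ℕ}

omit [Fintype V] in
/-- the flows of bundles are pushed to flows exactly if the bundles are pushed to sets of parallel
edges -/
theorem bundles_push {c : V → Bool} (hc : ∀ e, c (G.src e) ≠ c (G.tgt e))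
    {τ : ((i : Fin r) × Fin (n i)) → E} (hτ : Function.Injective τ) :
    (∃ η : ((i : Fin r) × Fin (n i)) → ℤˣ, ∀ x, (bundles n).IsFlow x →
      G.IsFlow (push τ η x)) ↔
    ∀ i k l, Parallel G (τ ⟨i, k⟩) (τ ⟨i, l⟩) := by
  constructor
  · rintro ⟨η, h⟩ i k l
    by_cases hkl : k = l
    · subst hkl
      exact Or.inl ⟨rfl, rfl⟩
    have h1 := h _ (bundles_root i k l)
    have h2 : push τ η (Pi.single ⟨i, k⟩ 1 - Pi.single ⟨i, l⟩ 1) =
        (η ⟨i, k⟩ : ℤ) • Pi.single (τ ⟨i, k⟩) 1 + (-(η ⟨i, l⟩ : ℤ)) • Pi.single (τ ⟨i, l⟩) 1 := by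
      symm
      apply eq_push hτ
      · intro e'
        simp only [Pi.add_apply, Pi.smul_apply, Pi.single_apply, hτ.eq_iff, Pi.sub_apply,
          smul_eq_mul]
        by_cases h3 : e' = ⟨i, k⟩
        · have h4 : e' ≠ ⟨i, l⟩ := fun h => hkl (by simpa using h3.symm.trans h)
          rw [if_pos h3, if_neg h4, h3]
          ring
        · by_cases h4 : e' = ⟨i, l⟩
          · rw [if_neg h3, if_pos h4, h4]
            ring
          · rw [if_neg h3, if_neg h4]
            ring
      · intro e he
        simp only [Pi.add_apply, Pi.smul_apply, Pi.single_apply, smul_eq_mul]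
        rw [if_neg fun h => he _ h.symm, if_neg fun h => he _ h.symm]
        ring
    rw [h2] at h1
    refine parallel_of hc ?_ h1
    rcases Int.units_eq_one_or (η ⟨i, k⟩) with h | h <;> rw [h] <;> simp
  · intro h
    refine ⟨fun e => if c (G.src (τ e)) then 1 else -1, fun x hx => ?_⟩
    rw [isFlow_iff, push_eq_sum]
    have key : ∀ e : (i : Fin r) × Fin (n i), ∀ v, (((if c (G.src (τ e)) then 1 else -1 : ℤˣ) : ℤ)) *
        ((if v = G.tgt (τ e) then 1 else 0) - (if v = G.src (τ e) then 1 else 0)) =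
        (if v = (if c (G.src (τ e)) then G.tgt (τ e) else G.src (τ e)) then 1 else 0) -
        (if v = (if c (G.src (τ e)) then G.src (τ e) else G.tgt (τ e)) then 1 else 0) := by
      intro e v
      cases h1 : c (G.src (τ e)) <;> simp
    have hG : ∀ (e : (i : Fin r) × Fin (n i)), G.bd (((((if c (G.src (τ e)) then 1 else -1 : ℤˣ) : ℤ)) *
        x e) • Pi.single (τ e) (1 : ℤ)) = fun v =>
        x e * ((if v = (if c (G.src (τ e)) then G.tgt (τ e) else G.src (τ e)) then 1 else 0) -
        (if v = (if c (G.src (τ e)) then G.src (τ e) else G.tgt (τ e)) then 1 else 0)) := by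
      intro e
      funext v
      rw [bd_smul, Pi.smul_apply, bd_single, smul_eq_mul, ← key e v]
      ring
    have hsum : ∀ (s : Finset ((i : Fin r) × Fin (n i))) (w : ((i : Fin r) × Fin (n i)) → E → ℤ),
        G.bd (∑ e ∈ s, w e) = ∑ e ∈ s, G.bd (w e) := by
      intro s w
      exact map_sum G.bdL w s
    rw [hsum]
    funext v
    rw [Finset.sum_apply, Pi.zero_apply, Fintype.sum_sigma]
    apply sum_eq_zero
    intro i _
    simp only [hG]
    by_cases hn : Nonempty (Fin (n i))
    · obtain ⟨k0⟩ := hn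
      have hpar : ∀ k : Fin (n i), (if c (G.src (τ ⟨i, k⟩)) then G.tgt (τ ⟨i, k⟩) else
          G.src (τ ⟨i, k⟩)) = (if c (G.src (τ ⟨i, k0⟩)) then G.tgt (τ ⟨i, k0⟩) else
          G.src (τ ⟨i, k0⟩)) ∧ (if c (G.src (τ ⟨i, k⟩)) then G.src (τ ⟨i, k⟩) else
          G.tgt (τ ⟨i, k⟩)) = (if c (G.src (τ ⟨i, k0⟩)) then G.src (τ ⟨i, k0⟩) else
          G.tgt (τ ⟨i, k0⟩)) := by
        intro k
        rcases h i k k0 with ⟨h1, h2⟩ | ⟨h1, h2⟩
        · rw [h1, h2]; exact ⟨rfl, rfl⟩
        · have h3 := hc (τ ⟨i, k0⟩)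
          rw [h1, h2]
          cases h4 : c (G.tgt (τ ⟨i, k0⟩)) <;> cases h5 : c (G.src (τ ⟨i, k0⟩))
          · rw [h4, h5] at h3; exact absurd rfl h3
          · simp
          · simp
          · rw [h4, h5] at h3; exact absurd rfl h3
      rw [sum_congr rfl fun k _ => by rw [(hpar k).1, (hpar k).2], ← sum_mul,
        bundles_flow.1 hx i, zero_mul]
    · have := not_nonempty_iff.1 hn
      exact sum_of_isEmpty _

end

end Pool.Agent.H754.Opt
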