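import Pool.Agent.H754.Opt.Coords
import Pool.Agent.H754.Special.Final

/-!
Isometric embeddings of the lattice of flows of a graph with at least three edges in each parallel
class are standard.
-/

set_option autoImplicit false

namespace Pool.Agent.H754.Opt

open Finset Matrix Pool.Agent.H762.TG Pool.Agent.H762.TG.Multigraph Pool.Agent.H754.Special

/-- `e` and `f` have the same ends. -/
def Parallel {V E : Type} (G : Multigraph V E) (e f : E) : Prop :=
  (G.src e = G.src f ∧ G.tgt e = G.tgt f) ∨ (G.src e = G.tgt f ∧ G.tgt e = G.src f)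

/-- parallel edges -/
def parSetoid {V E : Type} (G : Multigraph V E) : Setoid E where
  r := Parallel G
  iseqv :=
    { refl := fun _ => Or.inl ⟨rfl, rfl⟩
      symm := by
        rintro e f (⟨h1, h2⟩ | ⟨h1, h2⟩)
        · exact Or.inl ⟨h1.symm, h2.symm⟩
        · exact Or.inr ⟨h2.symm, h1.symm⟩
      trans := by
        rintro e f g (⟨h1, h2⟩ | ⟨h1, h2⟩) (⟨h3, h4⟩ | ⟨h3, h4⟩)
        · exact Or.inl ⟨h1.trans h3, h2.trans h4⟩
        · exact Or.inr ⟨h1.trans h3, h2.trans h4⟩
        · exact Or.inr ⟨h1.trans h4, h2.trans h3⟩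
        · exact Or.inl ⟨h1.trans h4, h2.trans h3⟩ }

section

variable {V E : Type} [Fintype V] [Fintype E] [DecidableEq V] [DecidableEq E]
  {G : Multigraph V E}

omit [Fintype V] in
/-- differences of parallel edges are flows -/
theorem root_flow {c : V → Bool} (hc : ∀ e, c (G.src e) ≠ c (G.tgt e)) {sg : E → ℤ}
    (hsg : ∀ e, sg e = if c (G.src e) then 1 else -1) {e f : E} (h : Parallel G e f) :
    root sg e f ∈ G.flows := by
  change G.IsFlow _
  rw [isFlow_iff]
  have key : ∀ g : E, (Pi.single g (sg g) : E → ℤ) = sg g • Pi.single g 1 := by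
    intro g
    rw [← Pi.single_smul, smul_eq_mul, mul_one]
  funext v
  rw [root, bd_sub, Pi.sub_apply, key, key, bd_smul, bd_smul, Pi.smul_apply, Pi.smul_apply,
    bd_single, bd_single, hsg, hsg, Pi.zero_apply]
  rcases h with ⟨h1, h2⟩ | ⟨h1, h2⟩
  · rw [h1, h2, sub_self]
  · have h3 := hc f
    rw [h1, h2]
    cases h4 : c (G.tgt f) <;> cases h5 : c (G.src f)
    · rw [h4, h5] at h3; exact absurd rfl h3
    · simp
    · simp
    · rw [h4, h5] at h3; exact absurd rfl h3

/-- The embeddings of the lattice of flows are standard. -/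
theorem thick_standard {c : V → Bool} (hc : ∀ e, c (G.src e) ≠ c (G.tgt e))
    (hod : ∀ x, G.IsFlow x → (∀ y, G.IsFlow y → Even (x ⬝ᵥ y)) →
      ∃ z, G.IsFlow z ∧ x = (2 : ℤ) • z)
    (h3 : ∀ e, 3 ≤ {f | Parallel G e f}.ncard)
    {ι : Type} [Fintype ι] [DecidableEq ι] (φ : G.flows →ₗ[ℤ] (ι → ℤ))
    (hφ : ∀ a b, φ a ⬝ᵥ φ b = (a : E → ℤ) ⬝ᵥ (b : E → ℤ)) :
    ∃ (τ : E → ι) (η : E → ℤˣ), Function.Injective τ ∧
      (∀ (x : G.flows) (e : E), φ x (τ e) = η e * (x : E → ℤ) e) ∧
      ∀ (x : G.flows) (i : ι), (∀ e, τ e ≠ i) → φ x i = 0 := by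
  classical
  obtain ⟨sg, hsg⟩ : ∃ sg : E → ℤ, ∀ e, sg e = if c (G.src e) then 1 else -1 := ⟨_, fun _ => rfl⟩
  have hs1 : ∀ e, sg e = 1 ∨ sg e = -1 := by
    intro e
    rw [hsg]
    split_ifs
    · left; rfl
    · right; rfl
  have hsq : ∀ e, sg e * sg e = 1 := fun e => by rcases hs1 e with h | h <;> rw [h] <;> rfl
  have hroot : ∀ e f, Parallel G e f → root sg e f ∈ G.flows := fun e f h => root_flow hc hsg h
  have hc4 : ∀ (S : Finset E) (e : E), (∀ f, f ∈ S ↔ Parallel G e f) → S.card = 4 →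
      ∃ z ∈ G.flows, Odd (∑ f ∈ S, z f) := by
    intro S e hS hcard
    obtain ⟨a0, a1, a2, a3, h01, h02, h03, h12, h13, h23, hSe⟩ := Finset.card_eq_four.1 hcard
    by_contra hcon
    push Not at hcon
    have ha : ∀ a ∈ S, ∀ b ∈ S, Parallel G a b := fun a ha b hb =>
      (parSetoid G).trans ((parSetoid G).symm ((hS a).1 ha)) ((hS b).1 hb)
    have m0 : a0 ∈ S := by rw [hSe]; simp
    have m1 : a1 ∈ S := by rw [hSe]; simp
    have m2 : a2 ∈ S := by rw [hSe]; simp
    have m3 : a3 ∈ S := by rw [hSe]; simp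
    have hy : root sg a0 a1 + root sg a2 a3 ∈ G.flows :=
      add_mem (hroot _ _ (ha _ m0 _ m1)) (hroot _ _ (ha _ m2 _ m3))
    obtain ⟨z, -, hz⟩ := hod _ hy (by
      intro y hy'
      have h1 := hcon y hy'
      rw [Int.not_odd_iff_even, hSe, sum_insert (by simp [h01, h02, h03]),
        sum_insert (by simp [h12, h13]), sum_pair h23] at h1
      rw [add_dotProduct, root_dot, root_dot]
      obtain ⟨k, hk⟩ := h1
      rcases hs1 a0 with k0 | k0 <;> rcases hs1 a1 with k1 | k1 <;>
        rcases hs1 a2 with k2 | k2 <;> rcases hs1 a3 with k3 | k3 <;>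
        rw [k0, k1, k2, k3] <;> rw [Int.even_iff] <;> omega)
    have h4 := congrFun hz a0
    rw [Pi.add_apply, root_apply_self sg h01, root_apply_ne sg h02 h03, Pi.smul_apply,
      smul_eq_mul] at h4
    rcases hs1 a0 with k0 | k0 <;> omega
  obtain ⟨b, ε, hb, hε, hbr⟩ := exists_coords hs1 (parSetoid G) hroot h3 hc4 φ hφ
  have hεq : ∀ e, ε e * ε e = 1 := fun e => by rcases hε e with h | h <;> rw [h] <;> rfl
  -- the difference
  let Δ : G.flows →ₗ[ℤ] (E → ℤ) :=
    { toFun := fun x e => ε e * φ x (b e) - sg e * (x : E → ℤ) e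
      map_add' := fun x y => by
        funext e
        simp only [map_add, Pi.add_apply, Submodule.coe_add]
        ring
      map_smul' := fun k x => by
        funext e
        simp only [map_smul, Pi.smul_apply, Submodule.coe_smul, smul_eq_mul, RingHom.id_apply]
        ring }
  have hΔ : ∀ x e, Δ x e = ε e * φ x (b e) - sg e * (x : E → ℤ) e := fun _ _ => rfl
  have hΔroot : ∀ e f (h : Parallel G e f), Δ ⟨root sg e f, hroot e f h⟩ = 0 := by
    intro e f h
    funext g
    rw [hΔ, hbr e f h]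
    change ε g * ((Pi.single (b e) (ε e) - Pi.single (b f) (ε f) : ι → ℤ) (b g)) -
      sg g * root sg e f g = 0
    rw [Pi.sub_apply, Pi.single_apply, Pi.single_apply, root, Pi.sub_apply, Pi.single_apply,
      Pi.single_apply]
    simp only [hb.eq_iff]
    by_cases h1 : g = e
    · subst h1
      by_cases h2 : g = f
      · subst h2; simp
      · rw [if_pos rfl, if_neg h2, if_pos rfl, if_neg h2, sub_zero, sub_zero, hεq, hsq, sub_self]
    · by_cases h2 : g = f
      · subst h2
        rw [if_neg h1, if_pos rfl, if_neg h1, if_pos rfl, zero_sub, zero_sub, mul_neg, mul_neg,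
          hεq, hsq, sub_self]
      · rw [if_neg h1, if_neg h2, if_neg h1, if_neg h2]
        ring
  have hΔpar : ∀ (x : G.flows) e f, Parallel G e f → Δ x e = Δ x f := by
    intro x e f h
    have h1 := hφ ⟨root sg e f, hroot e f h⟩ x
    rw [root_dot, hbr e f h, sub_dotProduct, single_dotProduct, single_dotProduct] at h1
    rw [hΔ, hΔ]
    linarith
  -- representatives
  let r : E → E := fun e => (Quotient.mk (parSetoid G) e).out
  have hr : ∀ e, Parallel G (r e) e := fun e =>
    Quotient.exact (s := parSetoid G) (Quotient.out_eq _)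
  have hrr : ∀ e f, Parallel G e f → r e = r f := by
    intro e f h
    change (Quotient.mk (parSetoid G) e).out = (Quotient.mk (parSetoid G) f).out
    rw [Quotient.sound (s := parSetoid G) h]
  let n : E → ℕ := fun g => (univ.filter fun e => r e = g).card
  have hn3 : ∀ g, r g = g → 3 ≤ n g := by
    intro g hg
    refine (h3 g).trans (le_of_eq ?_)
    rw [Set.ncard_eq_toFinset_card']
    congr 1
    ext e
    simp only [Set.mem_toFinset, mem_filter, mem_univ, true_and]
    constructor
    · intro h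
      have h' : Parallel G g e := h
      rw [← hrr _ _ h', hg]
    · intro h
      have := hr e
      rw [h] at this
      exact this
  -- unit flows supported on representatives
  have hunit : ∀ z : G.flows, IsUnit' (z : E → ℤ) → (∀ f, r f ≠ f → (z : E → ℤ) f = 0) →
      Δ z = 0 := by
    intro z hz hz0
    have h2 : φ z ⬝ᵥ φ z = (z : E → ℤ) ⬝ᵥ (z : E → ℤ) := hφ z z
    rw [dot_self, dot_self, sum_split hb] at h2
    have h2' : 0 ≤ ∑ i with ∀ e, b e ≠ i, φ z i ^ 2 := sum_nonneg fun _ _ => sq_nonneg _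
    have h4 : ∑ e, Δ z e ^ 2 = ∑ g, (n g : ℤ) * Δ z g ^ 2 := by
      have h3' : ∀ e, Δ z e ^ 2 = Δ z (r e) ^ 2 := fun e => by rw [hΔpar z _ _ (hr e)]
      rw [sum_congr rfl fun e _ => h3' e, ← sum_fiberwise univ r]
      apply sum_congr rfl
      intro g _
      rw [sum_congr rfl (g := fun _ => Δ z g ^ 2) fun e he => by rw [(mem_filter.1 he).2]]
      rw [sum_const, nsmul_eq_mul]
    have h5 : ∑ g, ((n g : ℤ) * Δ z g ^ 2 + 2 * (sg g * (z : E → ℤ) g) * Δ z g) ≤ 0 := by
      rw [sum_add_distrib, ← h4, ← sum_add_distrib]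
      have h6 : ∑ e, φ z (b e) ^ 2 =
          ∑ e, (z : E → ℤ) e ^ 2 + ∑ e, (Δ z e ^ 2 + 2 * (sg e * (z : E → ℤ) e) * Δ z e) := by
        rw [← sum_add_distrib]
        apply sum_congr rfl
        intro e _
        have h7 : ε e * φ z (b e) = Δ z e + sg e * (z : E → ℤ) e := by rw [hΔ]; ring
        calc φ z (b e) ^ 2 = (ε e * ε e) * φ z (b e) ^ 2 := by rw [hεq, one_mul]
          _ = (ε e * φ z (b e)) ^ 2 := by ring
          _ = (Δ z e + sg e * (z : E → ℤ) e) ^ 2 := by rw [h7]
          _ = Δ z e ^ 2 + 2 * (sg e * (z : E → ℤ) e) * Δ z e +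
              (sg e * sg e) * (z : E → ℤ) e ^ 2 := by ring
          _ = _ := by rw [hsq]; ring
      rw [h6] at h2
      linarith
    have hnn : ∀ g ∈ univ, 0 ≤ (n g : ℤ) * Δ z g ^ 2 + 2 * (sg g * (z : E → ℤ) g) * Δ z g := by
      intro g _
      by_cases hg : r g = g
      · have h6' : (3 : ℤ) ≤ (n g : ℤ) := by exact_mod_cast hn3 g hg
        have h8 : |Δ z g| ≤ Δ z g ^ 2 := by
          rw [← sq_abs]
          rcases eq_or_lt_of_le (abs_nonneg (Δ z g)) with h | h
          · rw [← h]; rfl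
          · have : 1 ≤ |Δ z g| := h
            nlinarith
        have h9 : -|Δ z g| ≤ sg g * (z : E → ℤ) g * Δ z g := by
          rcases hz g with h | h | h <;> rcases hs1 g with k | k <;> rw [h, k]
          · linarith [abs_nonneg (Δ z g)]
          · linarith [abs_nonneg (Δ z g)]
          · linarith [neg_abs_le (Δ z g)]
          · linarith [le_abs_self (Δ z g)]
          · linarith [le_abs_self (Δ z g)]
          · linarith [neg_abs_le (Δ z g)]
        nlinarith [sq_nonneg (Δ z g)]
      · rw [hz0 g hg, mul_zero, mul_zero, zero_mul, add_zero]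
        positivity
    have h5' := le_antisymm h5 (sum_nonneg hnn)
    rw [sum_eq_zero_iff_of_nonneg hnn] at h5'
    funext e
    have hrre : r (r e) = r e := hrr _ _ (hr e)
    have h6 := h5' (r e) (mem_univ _)
    have h7 : (3 : ℤ) ≤ (n (r e) : ℤ) := by exact_mod_cast hn3 _ hrre
    rw [← hΔpar z _ _ (hr e), Pi.zero_apply]
    by_contra h8
    have h10 : (1 : ℤ) ≤ |Δ z (r e)| := Int.one_le_abs h8
    have h9 : -|Δ z (r e)| ≤ sg (r e) * (z : E → ℤ) (r e) * Δ z (r e) := by
      rcases hz (r e) with h | h | h <;> rcases hs1 (r e) with k | k <;> rw [h, k]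
      · linarith
      · linarith
      · linarith [neg_abs_le (Δ z (r e))]
      · linarith [le_abs_self (Δ z (r e))]
      · linarith [le_abs_self (Δ z (r e))]
      · linarith [neg_abs_le (Δ z (r e))]
    have h11 : Δ z (r e) ^ 2 = |Δ z (r e)| ^ 2 := (sq_abs _).symm
    nlinarith
  -- all flows
  have hall : ∀ x : G.flows, Δ x = 0 := by
    intro x
    let K : Submodule ℤ (E → ℤ) := (LinearMap.ker Δ).map G.flows.subtype
    have hK : ∀ y : G.flows, (y : E → ℤ) ∈ K → Δ y = 0 := by
      rintro y ⟨y', hy', hyy⟩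
      have : y' = y := Subtype.ext hyy
      rw [← this]
      exact hy'
    apply hK
    have hparr : ∀ e, Parallel G e (r e) := fun e => (parSetoid G).symm (hr e)
    have hrootK : ∀ e, root sg e (r e) ∈ K := fun e =>
      ⟨⟨_, hroot e (r e) (hparr e)⟩, hΔroot _ _ (hparr e), rfl⟩
    let y : E → ℤ := ∑ e, (sg e * (x : E → ℤ) e) • root sg e (r e)
    have hyK : y ∈ K := sum_mem fun e _ => K.smul_mem _ (hrootK e)
    have hyF : y ∈ G.flows := sum_mem fun e _ => G.flows.smul_mem _ (hroot e _ (hparr e))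
    have hx' : (x : E → ℤ) - y ∈ G.flows := sub_mem x.2 hyF
    have hval : ∀ f, r f ≠ f → ((x : E → ℤ) - y) f = 0 := by
      intro f hf
      have h1 : y f = (x : E → ℤ) f := by
        change (∑ e, (sg e * (x : E → ℤ) e) • root sg e (r e)) f = _
        rw [Finset.sum_apply, sum_eq_single f]
        · rw [Pi.smul_apply, root_apply_self sg hf.symm, smul_eq_mul]
          calc sg f * (x : E → ℤ) f * sg f = (sg f * sg f) * (x : E → ℤ) f := by ring
            _ = _ := by rw [hsq, one_mul]
        · intro g _ hg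
          have h2 : f ≠ r g := by
            intro h
            apply hf
            have h4 : r f = r (r g) := by rw [← h]
            rw [h4, hrr _ _ (hr g), ← h]
          rw [Pi.smul_apply, root_apply_ne sg hg.symm h2, smul_zero]
        · intro h
          exact absurd (mem_univ _) h
      rw [Pi.sub_apply, h1, sub_self]
    have h2 : (x : E → ℤ) - y ∈ K := by
      have h3' := G.flow_mem_span _ _ hx' le_rfl
      refine (Submodule.span_le.2 ?_) h3'
      rintro d ⟨hd1, hd2, hd3⟩
      exact ⟨⟨d, hd1⟩, hunit ⟨d, hd1⟩ hd2 fun f hf => hd3 f (hval f hf), rfl⟩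
    have := K.add_mem h2 hyK
    simpa using this
  have hstd : ∀ (x : G.flows) e, ε e * φ x (b e) = sg e * (x : E → ℤ) e := by
    intro x e
    have := congrFun (hall x) e
    rw [hΔ, Pi.zero_apply, sub_eq_zero] at this
    exact this
  have hunits : ∀ e, ∃ u : ℤˣ, (u : ℤ) = ε e * sg e := by
    intro e
    rcases hε e with h | h <;> rcases hs1 e with k | k <;> rw [h, k]
    · exact ⟨1, rfl⟩
    · exact ⟨-1, rfl⟩
    · exact ⟨-1, rfl⟩
    · exact ⟨1, rfl⟩
  choose η hη using hunits
  have hfin : ∀ (x : G.flows) (e : E), φ x (b e) = η e * (x : E → ℤ) e := by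
    intro x e
    rw [hη, mul_assoc, ← hstd, ← mul_assoc, hεq, one_mul]
  refine ⟨b, η, hb, hfin, fun x i hi => ?_⟩
  have h2 : φ x ⬝ᵥ φ x = (x : E → ℤ) ⬝ᵥ (x : E → ℤ) := hφ x x
  rw [dot_self, dot_self, sum_split hb] at h2
  have h5 : ∑ e, φ x (b e) ^ 2 = ∑ e, (x : E → ℤ) e ^ 2 := by
    apply sum_congr rfl
    intro e _
    rw [hfin, mul_pow]
    have : (η e : ℤ) ^ 2 = 1 := by rw [sq]; exact unit_mul_self _
    rw [this, one_mul]
  rw [h5] at h2
  have h6 : ∑ i with ∀ e, b e ≠ i, φ x i ^ 2 = 0 := by linarith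
  rw [sum_eq_zero_iff_of_nonneg fun _ _ => sq_nonneg _] at h6
  have h7 := h6 i (mem_filter.2 ⟨mem_univ _, hi⟩)
  exact pow_eq_zero_iff (by norm_num) |>.1 h7

end

end Pool.Agent.H754.Opt
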